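import Mathlib

/-!
Sums of binomial coefficients along arithmetic progressions.
-/

set_option autoImplicit false

open Finset

namespace Pool.MP43e44c

theorem choose_mono_left {N i j : ℕ} (hij : i ≤ j) (hj : j ≤ N / 2) : N.choose i ≤ N.choose j := by
  induction j, hij using Nat.le_induction with
  | base => exact le_rfl
  | succ j hij ih =>
    exact (ih (by omega)).trans (Nat.choose_le_succ_of_lt_half_left (by omega))

theorem choose_anti_right {N i j : ℕ} (hij : i ≤ j) (hi : N / 2 ≤ i) : N.choose j ≤ N.choose i := by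
  rcases Nat.lt_or_ge N j with h | h
  · rw [Nat.choose_eq_zero_of_lt h]; exact Nat.zero_le _
  · rcases Nat.lt_or_ge (N / 2) i with h1 | h1
    · rw [← Nat.choose_symm h, ← Nat.choose_symm (hij.trans h)]
      exact choose_mono_left (by omega) (by omega)
    · have h2 : i = N / 2 := le_antisymm h1 hi
      rw [h2]
      exact Nat.choose_le_middle _ _

/-- Interlacing sums. -/
theorem sum_interlace {N p r : ℕ} (hr : r ≤ p) (M : ℕ) :
    ∑ k ∈ range (M + 1), N.choose (k * p)
      ≤ ∑ k ∈ range M, N.choose (k * p + r) + N.choose (N / 2) := by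
  have hle : ∀ M : ℕ, (∀ k < M, k * p + r ≤ N / 2) →
      ∑ k ∈ range M, N.choose (k * p) ≤ ∑ k ∈ range M, N.choose (k * p + r) := by
    intro M hM
    refine Finset.sum_le_sum fun k hk => ?_
    exact choose_mono_left (Nat.le_add_right _ _) (hM k (mem_range.1 hk))
  induction M with
  | zero => simpa using Nat.choose_le_middle 0 N
  | succ M ih =>
    rw [Finset.sum_range_succ (fun k => N.choose (k * p)) (M + 1)]
    rcases Nat.lt_or_ge (M * p + r) (N / 2) with h | h
    · refine add_le_add (hle _ fun k hk => ?_) (Nat.choose_le_middle _ _)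
      have : k * p ≤ M * p := Nat.mul_le_mul_right p (by omega)
      omega
    · rw [Finset.sum_range_succ (fun k => N.choose (k * p + r))]
      have h1 : N.choose ((M + 1) * p) ≤ N.choose (M * p + r) := by
        refine choose_anti_right ?_ h
        rw [add_mul]; omega
      omega

theorem sum_blocks (N p : ℕ) (M : ℕ) :
    ∑ r ∈ range p, ∑ k ∈ range M, N.choose (k * p + r) = ∑ j ∈ range (M * p), N.choose j := by
  rw [Finset.sum_comm]
  induction M with
  | zero => simp
  | succ M ih =>
    rw [Finset.sum_range_succ, ih, add_mul, one_mul, Finset.sum_range_add]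

theorem sum_choose_range {N M : ℕ} (h : N < M) : ∑ j ∈ range M, N.choose j = 2 ^ N := by
  rw [← Nat.sum_range_choose N]
  symm
  apply Finset.sum_subset
  · intro j hj
    rw [mem_range] at hj ⊢
    omega
  · intro j _ hj
    rw [mem_range, not_lt] at hj
    exact Nat.choose_eq_zero_of_lt (by omega)

theorem mul_sum_choose_le {N p : ℕ} (hp : 0 < p) :
    p * ∑ k ∈ range (N + 2), N.choose (k * p) ≤ 2 ^ N + p * N.choose (N / 2) := by
  have h1 : ∀ r ∈ range p, ∑ k ∈ range (N + 2), N.choose (k * p)
      ≤ ∑ k ∈ range (N + 1), N.choose (k * p + r) + N.choose (N / 2) := fun r hr =>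
    sum_interlace (mem_range.1 hr).le (N + 1)
  have h2 := Finset.sum_le_sum h1
  rw [Finset.sum_const, card_range, smul_eq_mul, Finset.sum_add_distrib, Finset.sum_const,
    card_range, smul_eq_mul, sum_blocks, sum_choose_range] at h2
  · exact h2
  · nlinarith

theorem card_powerset_dvd {α : Type*} (S : Finset α) {p : ℕ} (hp : 0 < p) :
    (S.powerset.filter fun T => p ∣ T.card).card
      ≤ ∑ k ∈ range (S.card + 2), S.card.choose (k * p) := by
  classical
  have h1 : (S.powerset.filter fun T => p ∣ T.card)
      ⊆ (range (S.card + 2)).biUnion fun k => S.powersetCard (k * p) := by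
    intro T hT
    rw [mem_filter, mem_powerset] at hT
    obtain ⟨k, hk⟩ := hT.2
    rw [mem_biUnion]
    refine ⟨k, ?_, ?_⟩
    · rw [mem_range]
      have h2 := card_le_card hT.1
      rw [hk] at h2
      have h3 : k ≤ p * k := Nat.le_mul_of_pos_left k hp
      omega
    · rw [mem_powersetCard]
      exact ⟨hT.1, by rw [hk, mul_comm]⟩
  refine (card_le_card h1).trans (card_biUnion_le.trans ?_)
  refine Finset.sum_le_sum fun k _ => ?_
  rw [card_powersetCard]

end Pool.MP43e44c
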