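import Pool.Agent.H.MP_43e44c_ag.Syl.Rel

/-!
Orbits of Sylow subgroups on the embeddings and the parity/sign argument.
-/

set_option autoImplicit false

open Finset

namespace Pool.MP43e44c

section Orbit

variable {G E : Type*} [Group G] [Finite G] [MulAction G E] [MulAction.IsPretransitive G E]

theorem pow_dvd_orbit {p : ℕ} [Fact p.Prime] (P : Sylow p G) (e : E) {k : ℕ}
    (hk : p ^ k ∣ Nat.card E) : p ^ k ∣ (MulAction.orbit P e).ncard := by
  have h1 : (MulAction.stabilizer G e).index = Nat.card E := MulAction.index_stabilizer_of_transitive G e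
  have h2 : (MulAction.stabilizer P e).index = (MulAction.orbit P e).ncard :=
    MulAction.index_stabilizer (P : Subgroup G) e
  have h3 := (MulAction.stabilizer G e).card_mul_index
  have h4 := (MulAction.stabilizer P e).card_mul_index
  rw [h1] at h3
  rw [h2] at h4
  -- the stabilizer in P has order dividing that of the stabilizer in G
  have h5 : Nat.card (MulAction.stabilizer P e) ∣ Nat.card (MulAction.stabilizer G e) := by
    let φ : MulAction.stabilizer P e →* MulAction.stabilizer G e :=
      { toFun := fun x => ⟨(x.1 : G), x.2⟩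
        map_one' := rfl
        map_mul' := fun _ _ => rfl }
    refine Subgroup.card_dvd_of_injective φ ?_
    intro x y hxy
    apply Subtype.ext; apply Subtype.ext
    exact congrArg (fun z : MulAction.stabilizer G e => (z : G)) hxy
  obtain ⟨j, hj⟩ := IsPGroup.iff_card.1 (P.isPGroup'.to_subgroup (MulAction.stabilizer P e))
  have h6 : p ^ (j + k) ∣ Nat.card G := by
    rw [← h3, pow_add, ← hj]
    exact Nat.mul_dvd_mul h5 hk
  have h7 := P.pow_dvd_card_of_pow_dvd_card h6
  have h8 : p ^ j * p ^ k ∣ p ^ j * (MulAction.orbit P e).ncard := by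
    rw [← pow_add, ← hj]
    rw [hj, ← hj, h4]
    exact h7
  exact Nat.dvd_of_mul_dvd_mul_left (pow_pos (Fact.out (p := p.Prime)).pos j) h8

end Orbit

variable {G E : Type*} [Group G] [Finite G] [MulAction G E] [MulAction.IsPretransitive G E]
  [Fintype E]

/-- In degree a power of two a nonzero relation gives a relation with odd values. -/
theorem exists_all_odd {bar : E → E} {f : E → ℤ} (hbar : ∀ (g : G) e, g • bar e = bar (g • e))
    {m : ℕ} (hE : Nat.card E = 2 ^ m) {b : E → ℤ} (hb : b ∈ relSet G bar f) (h0 : b ≠ 0) :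
    ∃ b' ∈ relSet G bar f, ∀ e, Odd (b' e) := by
  obtain ⟨P⟩ : Nonempty (Sylow 2 G) := inferInstance
  obtain ⟨b', hb', ⟨e₀, he₀⟩, hfix⟩ := exists_fixed hbar P.isPGroup' hb h0
  refine ⟨b', hb', fun e => ?_⟩
  have h1 : (MulAction.orbit P e₀).ncard = Nat.card E := by
    apply Nat.le_antisymm
    · rw [← Set.ncard_univ]
      exact Set.ncard_le_ncard (Set.subset_univ _)
    · rw [hE]
      refine Nat.le_of_dvd ?_ (pow_dvd_orbit P e₀ (by rw [hE]))
      rw [Set.ncard_pos]
      exact ⟨e₀, MulAction.mem_orbit_self _⟩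
  have h2 : MulAction.orbit P e₀ = Set.univ := by
    apply Set.eq_of_subset_of_ncard_le (Set.subset_univ _)
    rw [h1, Set.ncard_univ]
  have h3 : e ∈ MulAction.orbit P e₀ := by rw [h2]; trivial
  obtain ⟨x, hx⟩ := h3
  have h4 := hfix x.1 x.2 e₀
  have h5 : (x : G) • e₀ = e := hx
  rw [h5] at h4
  rw [← Int.not_even_iff_odd, even_iff_two_dvd]
  intro h6
  apply he₀
  have h7 : ((2 : ℕ) : ℤ) ∣ b' e - (b' e - b' e₀) := dvd_sub (by exact_mod_cast h6) h4
  simpa using h7

section Signs

variable {bar : E → E} (hinv : ∀ e, bar (bar e) = e) {f : E → ℤ}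
  (hf : ∀ e, f e = 1 ∨ f e = -1) (hfb : ∀ e, f (bar e) = -f e)

include hinv hfb in
/-- Sum of a bar-invariant function over everything is twice the sum over `f = 1`. -/
theorem sum_eq_two (hf : ∀ e, f e = 1 ∨ f e = -1) (t : E → ℤ) (ht : ∀ e, t (bar e) = t e) :
    ∑ e, t e = 2 * ∑ e ∈ univ.filter (fun e => f e = 1), t e := by
  classical
  rw [← Finset.sum_filter_add_sum_filter_not univ (fun e => f e = 1) t, two_mul]
  congr 1
  refine Finset.sum_bij' (fun e _ => bar e) (fun e _ => bar e) ?_ ?_ ?_ ?_ ?_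
  · intro e he
    rw [mem_filter] at he ⊢
    refine ⟨mem_univ _, ?_⟩
    rw [hfb]
    rcases hf e with h | h
    · exact absurd h he.2
    · rw [h]; norm_num
  · intro e he
    rw [mem_filter] at he ⊢
    refine ⟨mem_univ _, ?_⟩
    rw [hfb, he.2]; norm_num
  · intro e _; exact hinv e
  · intro e _; exact hinv e
  · intro e _; exact (ht e).symm

omit [Finite G] [MulAction.IsPretransitive G E] in
include hinv hfb in
theorem even_flips (hf : ∀ e, f e = 1 ∨ f e = -1)
    (hbar : ∀ (g : G) e, g • bar e = bar (g • e)) {b : E → ℤ}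
    (hb : b ∈ relSet G bar f) (hodd : ∀ e, Odd (b e)) (g : G) :
    Even (univ.filter (fun e => f e = 1 ∧ f (g • e) = -1)).card := by
  classical
  have h1 : ∑ e, (f (g • e) - f e) * b e = 0 := by
    have h2 := hb.2 g
    have h3 := hb.2 1
    simp only [one_smul] at h3
    simp only [sub_mul, Finset.sum_sub_distrib, h2, h3, sub_zero]
  rw [sum_eq_two hinv hfb hf _ (fun e => by rw [hbar, hfb, hfb, hb.1]; ring)] at h1
  have h4 : ∑ e ∈ univ.filter (fun e => f e = 1), (f (g • e) - f e) * b e = 0 := by
    omega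
  have h5 : ∑ e ∈ univ.filter (fun e => f e = 1), (f (g • e) - f e) * b e
      = (-2) * ∑ e ∈ univ.filter (fun e => f e = 1 ∧ f (g • e) = -1), b e := by
    rw [Finset.mul_sum, ← Finset.filter_filter]
    rw [Finset.sum_filter (p := fun e => f (g • e) = -1)]
    refine Finset.sum_congr rfl fun e he => ?_
    rw [(mem_filter.1 he).2]
    rcases hf (g • e) with h | h
    · rw [h]; norm_num
    · rw [h, if_pos rfl]; norm_num
  rw [h5] at h4
  have h6 : ∑ e ∈ univ.filter (fun e => f e = 1 ∧ f (g • e) = -1), b e = 0 := by omega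
  have h7 := congrArg (Int.cast : ℤ → ZMod 2) h6
  rw [Int.cast_sum, Int.cast_zero] at h7
  rw [Finset.sum_congr rfl (g := fun _ => (1 : ZMod 2))] at h7
  · rw [Finset.sum_const, nsmul_eq_mul, mul_one] at h7
    exact (ZMod.natCast_eq_zero_iff_even).1 h7
  · intro e _
    obtain ⟨k, hk⟩ := hodd e
    rw [hk]; push_cast
    have : (2 : ZMod 2) = 0 := rfl
    rw [this]; ring

/-- The equivalence of `E` with two copies of `{f = 1}`. -/
def splitEquiv (hinv : ∀ e, bar (bar e) = e) (hf : ∀ e, f e = 1 ∨ f e = -1)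
    (hfb : ∀ e, f (bar e) = -f e) : E ≃ {e : E // f e = 1} × Bool where
  toFun e := if h : f e = 1 then (⟨e, h⟩, true) else
    (⟨bar e, by rcases hf e with h1 | h1; exact absurd h1 h; rw [hfb, h1]; norm_num⟩, false)
  invFun x := if x.2 then x.1.1 else bar x.1.1
  left_inv e := by
    by_cases h : f e = 1
    · simp [h]
    · simp [h, hinv]
  right_inv := by
    rintro ⟨⟨e, he⟩, s⟩
    cases s
    · have : ¬ f (bar e) = 1 := by rw [hfb, he]; norm_num
      simp [this, hinv]
    · simp [he]

include hinv hfb in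
theorem sign_eq_one [DecidableEq E] (hf : ∀ e, f e = 1 ∨ f e = -1) (σ : Equiv.Perm E)
    (hσ : ∀ e, σ (bar e) = bar (σ e))
    (hev : Even (univ.filter (fun e => f e = 1 ∧ f (σ e) = -1)).card) :
    Equiv.Perm.sign σ = 1 := by
  classical
  let S := {e : E // f e = 1}
  let ε : E ≃ S × Bool := splitEquiv hinv hf hfb
  -- the induced map on S
  let r : S → S := fun x => (ε (σ x.1)).1
  have hr : ∀ x : S, (r x).1 = σ x.1 ∨ (r x).1 = bar (σ x.1) := by
    intro x
    by_cases h : f (σ x.1) = 1
    · left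
      show ((splitEquiv hinv hf hfb (σ x.1)).1).1 = σ x.1
      simp [splitEquiv, h]
    · right
      show ((splitEquiv hinv hf hfb (σ x.1)).1).1 = bar (σ x.1)
      simp [splitEquiv, h]
  have hrinj : Function.Injective r := by
    intro x y hxy
    have hxy' : (r x).1 = (r y).1 := congrArg Subtype.val hxy
    have hne : ∀ a c : S, a.1 ≠ bar c.1 := by
      intro a c hac
      have h1 := a.2
      rw [hac, hfb, c.2] at h1
      norm_num at h1
    apply Subtype.ext
    rcases hr x with h1 | h1 <;> rcases hr y with h2 | h2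
    · rw [h1, h2] at hxy'; exact σ.injective hxy'
    · rw [h1, h2, ← hσ] at hxy'
      exact absurd (σ.injective hxy') (hne _ _)
    · rw [h1, h2, ← hσ] at hxy'
      exact absurd (σ.injective hxy').symm (hne _ _)
    · rw [h1, h2, ← hσ, ← hσ] at hxy'
      have h3 := congrArg bar (σ.injective hxy')
      rwa [hinv, hinv] at h3
  let ρ : Equiv.Perm S := Equiv.ofBijective r (Finite.injective_iff_bijective.1 hrinj)
  let κ : S → Equiv.Perm Bool := fun x => if f (σ x.1) = 1 then 1 else Equiv.boolNot
  have hdec : ε.permCongr σ = (Equiv.prodCongrLeft (fun _ : Bool => ρ)) *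
      (Equiv.prodCongrRight κ) := by
    apply Equiv.ext
    rintro ⟨x, s⟩
    rw [Equiv.permCongr_apply, Equiv.Perm.mul_apply, Equiv.prodCongrRight_apply,
      Equiv.prodCongrLeft_apply]
    show ε (σ (ε.symm (x, s))) = (r x, κ x s)
    cases s
    · have h1 : ε.symm (x, false) = bar x.1 := by simp [ε, splitEquiv]
      rw [h1, hσ]
      by_cases h : f (σ x.1) = 1
      · have h2 : ¬ f (bar (σ x.1)) = 1 := by rw [hfb, h]; norm_num
        simp [ε, splitEquiv, h, h2, r, κ, hinv]
      · have h2 : f (bar (σ x.1)) = 1 := by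
          rcases hf (σ x.1) with h3 | h3
          · exact absurd h3 h
          · rw [hfb, h3]; norm_num
        simp [ε, splitEquiv, h, h2, r, κ]
    · have h1 : ε.symm (x, true) = x.1 := by simp [ε, splitEquiv]
      rw [h1]
      by_cases h : f (σ x.1) = 1
      · simp [ε, splitEquiv, h, r, κ]
      · simp [ε, splitEquiv, h, r, κ]
  rw [← Equiv.Perm.sign_permCongr ε, hdec, Equiv.Perm.sign_mul, Equiv.Perm.sign_prodCongrLeft,
    Equiv.Perm.sign_prodCongrRight]
  have h1 : ∏ _k : Bool, Equiv.Perm.sign ρ = 1 := by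
    rw [Finset.prod_const, Finset.card_univ, Fintype.card_bool]
    exact Int.units_sq _
  have h2 : ∏ x : S, Equiv.Perm.sign (κ x) = ∏ x : S, (if f (σ x.1) = -1 then (-1 : ℤˣ) else 1) := by
    refine Finset.prod_congr rfl fun x _ => ?_
    rcases hf (σ x.1) with h | h
    · simp only [κ, h]; norm_num
    · simp only [κ, h]
      norm_num
      decide
  rw [h1, h2, one_mul, Finset.prod_ite, Finset.prod_const, Finset.prod_const_one, mul_one]
  have h3 : (univ.filter (fun x : S => f (σ x.1) = -1)).card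
      = (univ.filter (fun e => f e = 1 ∧ f (σ e) = -1)).card := by
    refine Finset.card_bij (fun x _ => x.1) ?_ ?_ ?_
    · intro x hx
      rw [mem_filter] at hx ⊢
      exact ⟨mem_univ _, x.2, hx.2⟩
    · intro x _ y _ h; exact Subtype.ext h
    · intro e he
      rw [mem_filter] at he
      exact ⟨⟨e, he.2.1⟩, by rw [mem_filter]; exact ⟨mem_univ _, he.2.2⟩, rfl⟩
  rw [h3]
  exact hev.neg_one_pow

end Signs

end Pool.MP43e44c
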