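import Pool.Agent.H.MP_43e44c_ag.Syl.Comb

/-!
Degree `2 p^m`, `p` odd: orbits of a Sylow `p`-subgroup and the divisibility condition.
-/

set_option autoImplicit false

open Finset

namespace Pool.MP43e44c

variable {G E : Type*} [Group G] [Finite G] [MulAction G E] [MulAction.IsPretransitive G E]
  [Fintype E] {bar : E → E}

theorem orbit_card {p m : ℕ} [Fact p.Prime] (hp2 : 2 < p) (hE : Nat.card E = 2 * p ^ m)
    (P : Sylow p G) (e : E) : (MulAction.orbit P e).ncard = p ^ m := by
  have hp := Fact.out (p := p.Prime)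
  have h1 : p ^ m ∣ (MulAction.orbit P e).ncard := pow_dvd_orbit P e (by rw [hE]; exact Dvd.intro_left _ rfl)
  have h2 : (MulAction.orbit P e).ncard ≤ 2 * p ^ m := by
    rw [← hE, ← Set.ncard_univ]
    exact Set.ncard_le_ncard (Set.subset_univ _)
  have hpos : 0 < (MulAction.orbit P e).ncard := by
    rw [Set.ncard_pos]
    exact ⟨e, MulAction.mem_orbit_self _⟩
  -- the orbit has p-power size
  obtain ⟨j, hj⟩ : ∃ j, (MulAction.orbit P e).ncard = p ^ j := by
    have h3 : (MulAction.stabilizer P e).index = (MulAction.orbit P e).ncard :=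
      MulAction.index_stabilizer (P : Subgroup G) e
    obtain ⟨j, hj⟩ := P.isPGroup'.index (MulAction.stabilizer P e)
    exact ⟨j, by rw [← h3, hj]⟩
  rw [hj] at h1 h2 ⊢
  have h4 : m ≤ j := (Nat.pow_dvd_pow_iff_le_right hp.one_lt).1 h1
  congr 1
  by_contra hne
  have h5 : m + 1 ≤ j := by omega
  have h6 : p ^ (m + 1) ≤ p ^ j := Nat.pow_le_pow_right hp.pos h5
  rw [pow_succ] at h6
  have h7 : 0 < p ^ m := pow_pos hp.pos m
  nlinarith

theorem bar_not_mem {p m : ℕ} [Fact p.Prime] (hp2 : 2 < p) (hE : Nat.card E = 2 * p ^ m)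
    (hbar : ∀ (g : G) e, g • bar e = bar (g • e)) (hinv : ∀ e, bar (bar e) = e)
    (hne : ∀ e, bar e ≠ e) (P : Sylow p G) (e : E) :
    bar e ∉ MulAction.orbit P e := by
  classical
  intro hmem
  have hcl : ∀ x ∈ MulAction.orbit P e, bar x ∈ MulAction.orbit P e := by
    rintro x ⟨g, rfl⟩
    obtain ⟨g', hg'⟩ := hmem
    refine ⟨g * g', ?_⟩
    show ((g * g' : P) : G) • e = bar ((g : G) • e)
    have h1 : (g' : G) • e = bar e := hg'
    rw [Subgroup.coe_mul, mul_smul, h1, hbar]
  have hfin : (MulAction.orbit P e).Finite := Set.toFinite _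
  set O : Finset E := hfin.toFinset with hO
  have hOm : ∀ x, x ∈ O ↔ x ∈ MulAction.orbit P e := fun x => by rw [hO]; simp
  have h2 : O.card = p ^ m := by
    rw [← orbit_card hp2 hE P e, Set.ncard_eq_toFinset_card _ hfin]
  have h3 : ∑ _x ∈ O, (1 : ZMod 2) = 0 := by
    refine Finset.sum_involution (fun x _ => bar x) ?_ ?_ ?_ ?_
    · intro x _; rfl
    · intro x _ _; exact hne x
    · intro x hx
      exact (hOm _).2 (hcl x ((hOm x).1 hx))
    · intro x _; exact hinv x
  rw [Finset.sum_const, nsmul_eq_mul, mul_one, h2] at h3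
  have h4 : Even (p ^ m) := (ZMod.natCast_eq_zero_iff_even).1 h3
  have h5 : Odd (p ^ m) := Odd.pow ((Fact.out (p := p.Prime)).odd_of_ne_two (by omega))
  exact (Nat.not_even_iff_odd.2 h5) h4

theorem mem_or_bar_mem {p m : ℕ} [Fact p.Prime] (hp2 : 2 < p) (hE : Nat.card E = 2 * p ^ m)
    (hbar : ∀ (g : G) e, g • bar e = bar (g • e)) (hinv : ∀ e, bar (bar e) = e)
    (hne : ∀ e, bar e ≠ e) (P : Sylow p G) (e x : E) :
    x ∈ MulAction.orbit P e ↔ bar x ∉ MulAction.orbit P e := by
  classical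
  have h1 := bar_not_mem hp2 hE hbar hinv hne P e
  have hdisj : Disjoint (MulAction.orbit P e) (MulAction.orbit P (bar e)) := by
    rw [Set.disjoint_left]
    intro y hy hy'
    apply h1
    have h2 : MulAction.orbit P y = MulAction.orbit P e := MulAction.orbit_eq_iff.2 hy
    have h3 : MulAction.orbit P y = MulAction.orbit P (bar e) := MulAction.orbit_eq_iff.2 hy'
    rw [← h2, h3]
    exact MulAction.mem_orbit_self _
  have huniv : MulAction.orbit P e ∪ MulAction.orbit P (bar e) = Set.univ := by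
    apply Set.eq_of_subset_of_ncard_le (Set.subset_univ _)
    rw [Set.ncard_univ, hE, Set.ncard_union_eq hdisj, orbit_card hp2 hE P e,
      orbit_card hp2 hE P (bar e)]
    omega
  have hbo : ∀ y z : E, y ∈ MulAction.orbit P z → bar y ∈ MulAction.orbit P (bar z) := by
    rintro y z ⟨g, rfl⟩
    exact ⟨g, by show (g : G) • bar z = bar ((g : G) • z); rw [hbar]⟩
  constructor
  · intro hx hbx
    have h2 := hbo x e hx
    exact Set.disjoint_left.1 hdisj hbx h2
  · intro hx
    have h2 : bar x ∈ MulAction.orbit P e ∪ MulAction.orbit P (bar e) := by rw [huniv]; trivial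
    rcases h2 with h2 | h2
    · exact absurd h2 hx
    · have h3 := hbo _ _ h2
      rwa [hinv, hinv] at h3

theorem dvd_sum_orbit {p m : ℕ} [Fact p.Prime] (hp2 : 2 < p) (hE : Nat.card E = 2 * p ^ m)
    (hbar : ∀ (g : G) e, g • bar e = bar (g • e)) (hinv : ∀ e, bar (bar e) = e)
    (hne : ∀ e, bar e ≠ e) (P : Sylow p G) (e₀ : E) {f : E → ℤ} (hfb : ∀ e, f (bar e) = -f e)
    {b : E → ℤ} (hb : b ∈ relSet G bar f) (h0 : b ≠ 0) :
    (p : ℤ) ∣ ∑ e ∈ (Set.toFinite (MulAction.orbit P e₀)).toFinset, f e := by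
  classical
  obtain ⟨b', hb', ⟨e₁, he₁⟩, hfix⟩ := exists_fixed hbar P.isPGroup' hb h0
  set O : Finset E := (Set.toFinite (MulAction.orbit P e₀)).toFinset with hO
  have hOm : ∀ x, x ∈ O ↔ x ∈ MulAction.orbit P e₀ := fun x => by rw [hO]; simp
  have hm := mem_or_bar_mem hp2 hE hbar hinv hne P e₀
  have hconst : ∀ e ∈ O, (b' e : ZMod p) = b' e₀ := by
    intro e he
    obtain ⟨x, hx⟩ := (hOm e).1 he
    have h1 : (x : G) • e₀ = e := hx
    have h2 := hfix x.1 x.2 e₀
    rw [h1, ← ZMod.intCast_zmod_eq_zero_iff_dvd, Int.cast_sub, sub_eq_zero] at h2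
    exact h2
  have ht : (b' e₀ : ZMod p) ≠ 0 := by
    intro h1
    apply he₁
    rw [← ZMod.intCast_zmod_eq_zero_iff_dvd]
    by_cases h2 : e₁ ∈ O
    · rw [hconst e₁ h2, h1]
    · have h3 : bar e₁ ∈ O := by
        rw [hOm]
        by_contra h4
        exact h2 ((hOm _).2 ((hm _).2 h4))
      have h4 := hconst _ h3
      rw [hb'.1, h1, Int.cast_neg, neg_eq_zero] at h4
      exact h4
  have hsum := hb'.2 1
  simp only [one_smul] at hsum
  have h5 : ∑ e, f e * b' e = 2 * ∑ e ∈ O, f e * b' e := by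
    rw [← Finset.sum_filter_add_sum_filter_not univ (fun e => e ∈ O) (fun e => f e * b' e), two_mul]
    congr 1
    · exact Finset.sum_congr (by ext; simp) fun _ _ => rfl
    · refine Finset.sum_bij' (fun e _ => bar e) (fun e _ => bar e) ?_ ?_ ?_ ?_ ?_
      · intro e he
        rw [mem_filter] at he
        rw [hOm]
        by_contra h4
        exact he.2 ((hOm _).2 ((hm _).2 h4))
      · intro e he
        rw [mem_filter]
        refine ⟨mem_univ _, ?_⟩
        rw [hOm]
        exact (hm e).1 ((hOm e).1 he)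
      · intro e _; exact hinv e
      · intro e _; exact hinv e
      · intro e _; rw [hfb, hb'.1]; ring
  have h6 : ∑ e ∈ O, f e * b' e = 0 := by omega
  have h7 := congrArg (Int.cast : ℤ → ZMod p) h6
  rw [Int.cast_sum, Int.cast_zero] at h7
  have h8 : ∑ e ∈ O, ((f e * b' e : ℤ) : ZMod p) = (∑ e ∈ O, (f e : ZMod p)) * b' e₀ := by
    rw [Finset.sum_mul]
    refine Finset.sum_congr rfl fun e he => ?_
    rw [Int.cast_mul, hconst e he]
  rw [h8] at h7
  have h9 : ∑ e ∈ O, (f e : ZMod p) = 0 := (mul_eq_zero.1 h7).resolve_right ht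
  rw [← ZMod.intCast_zmod_eq_zero_iff_dvd, Int.cast_sum]
  exact h9

end Pool.MP43e44c
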