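import Pool.Agent.H.MP_43e44c_ag.Span
import Pool.Agent.H.MP_43e44c_ag.Syl.OddP

/-!
CM fields which need not be Galois: embeddings into a Galois closure, relations, discriminants.
-/

set_option autoImplicit false

open NumberField Finset Module

namespace Pool.MP43e44c

section Act

variable {K L : Type*} [Field K] [Field L] [NumberField L]

/-- The Galois group of `L` acts on the embeddings of `K` into `L` by composition. -/
@[reducible] def embAction : MulAction (L ≃ₐ[ℚ] L) (K →+* L) where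
  smul g α := (g : L →+* L).comp α
  one_smul α := by ext x; rfl
  mul_smul g h α := by ext x; rfl

attribute [local instance] embAction

theorem emb_smul_apply (g : L ≃ₐ[ℚ] L) (α : K →+* L) (x : K) : (g • α) x = g (α x) := rfl

theorem emb_smul_comp (g : L ≃ₐ[ℚ] L) (α : K →+* L) (c : K →+* K) :
    g • (α.comp c) = (g • α).comp c := rfl

end Act

variable {K L : Type*} [Field K] [NumberField K] [Field L] [NumberField L] [IsGalois ℚ L]
  [Algebra K L] (Ψ : L →+* ℂ)

attribute [local instance] embAction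

theorem toC_injective : Function.Injective (fun α : K →+* L => Ψ.comp α) := by
  intro α β h
  ext x
  apply Ψ.injective
  exact RingHom.congr_fun h x

theorem toC_surj (φ : K →+* ℂ) :
    ∃ g : L ≃ₐ[ℚ] L, Ψ.comp (g • (algebraMap K L)) = φ := by
  obtain ⟨σ, hσ⟩ := NumberField.ComplexEmbedding.exists_comp_symm_eq_of_comp_eq (k := ℚ) Ψ
    (ComplexEmbedding.lift L φ) (Subsingleton.elim _ _)
  refine ⟨σ.symm, ?_⟩
  have h1 := ComplexEmbedding.lift_comp_algebraMap L φ
  rw [← hσ] at h1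
  exact h1

/-- Embeddings into the Galois closure versus complex embeddings. -/
noncomputable def toC : (K →+* L) ≃ (K →+* ℂ) :=
  Equiv.ofBijective (fun α : K →+* L => Ψ.comp α) ⟨toC_injective Ψ, fun φ => by
    obtain ⟨g, hg⟩ := toC_surj Ψ φ
    exact ⟨_, hg⟩⟩

theorem toC_apply (α : K →+* L) : toC Ψ α = Ψ.comp α := rfl

include Ψ in
theorem emb_pretransitive' : MulAction.IsPretransitive (L ≃ₐ[ℚ] L) (K →+* L) := by
  have h1 : ∀ α : K →+* L, ∃ g : L ≃ₐ[ℚ] L, g • (algebraMap K L) = α := by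
    intro α
    obtain ⟨g, hg⟩ := toC_surj Ψ (Ψ.comp α)
    exact ⟨g, toC_injective Ψ hg⟩
  refine ⟨fun α β => ?_⟩
  obtain ⟨g, hg⟩ := h1 α
  obtain ⟨g', hg'⟩ := h1 β
  refine ⟨g' * g⁻¹, ?_⟩
  rw [← hg, mul_smul, inv_smul_smul, hg']

include Ψ in
theorem emb_card : Nat.card (K →+* L) = finrank ℚ K := by
  rw [Nat.card_congr (toC (K := K) Ψ), Nat.card_eq_fintype_card, Embeddings.card]

theorem coef_gal2 {ι : Type*} [Fintype ι] [DecidableEq ι] {Φ : Finset (K →+* ℂ)} {n k : ℕ}
    {b : Fin n → 𝓞 K} {d : Fin n → K}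
    (m : MultilinearMap ℝ (fun _ : ι => (Fin k → Φ → ℂ)) ℝ)
    (hm : ∀ v : ι → Fin k → Φ → ℂ, (∀ l, v l ∈ cmLattice Φ k) → ∃ q : ℚ, m v = q)
    (f : ι → Fin k) (α : ι → K →+* L) (τ : L ≃ₐ[ℚ] L)
    (h0 : coef Φ b d m f (fun l => Ψ.comp (α l)) ≠ 0) :
    coef Φ b d m f (fun l => Ψ.comp (τ • α l)) ≠ 0 := by
  have h1 : ∀ r : ι → Fin n, ∃ q : ℚ, m (fun l => bvec Φ b (f l) (r l)) = q :=
    fun r => hm _ fun l => bvec_mem b (f l) (r l)
  choose q hq using h1
  set γ : L := ∑ r : ι → Fin n, (∏ l, α l (d (r l))) * (q r : L) with hγ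
  have h2 : coef Φ b d m f (fun l => Ψ.comp (α l)) = Ψ γ := by
    rw [coef, hγ, map_sum]
    refine Finset.sum_congr rfl fun r _ => ?_
    rw [map_mul, map_prod, map_ratCast, hq]
    norm_cast
  have h3 : coef Φ b d m f (fun l => Ψ.comp (τ • α l)) = Ψ (τ γ) := by
    rw [coef, hγ, map_sum, map_sum]
    refine Finset.sum_congr rfl fun r _ => ?_
    rw [map_mul, map_mul, map_prod, map_prod, map_ratCast, map_ratCast, hq]
    norm_cast
  rw [h3]
  rw [h2] at h0
  intro h5
  apply h0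
  have h6 : τ γ = 0 := by
    apply Ψ.injective; rw [h5, map_zero]
  have h7 : γ = 0 := by
    apply τ.injective; rw [h6, map_zero]
  rw [h7, map_zero]

open Classical in
/-- The sign function of a CM type. -/
noncomputable def sgnOf (Φ : Finset (K →+* ℂ)) (α : K →+* L) : ℤ :=
  if Ψ.comp α ∈ Φ then 1 else -1

theorem sgnOf_or (Φ : Finset (K →+* ℂ)) (α : K →+* L) :
    sgnOf Ψ Φ α = 1 ∨ sgnOf Ψ Φ α = -1 := by
  classical
  unfold sgnOf
  split_ifs <;> simp

theorem sgnOf_bar {Φ : Finset (K →+* ℂ)} (hΦ : IsCMType Φ) {c : K →+* K}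
    (hc : ∀ ψ : K →+* ℂ, ComplexEmbedding.conjugate ψ = ψ.comp c) (α : K →+* L) :
    sgnOf Ψ Φ (α.comp c) = - sgnOf Ψ Φ α := by
  classical
  have h1 : Ψ.comp (α.comp c) = ComplexEmbedding.conjugate (Ψ.comp α) := by
    rw [hc]; rfl
  unfold sgnOf
  rw [h1]
  by_cases h : Ψ.comp α ∈ Φ
  · rw [if_pos h, if_neg ((hΦ _).1 h)]
  · rw [if_neg h, if_pos]
    · norm_num
    · by_contra h2
      exact h ((hΦ _).2 h2)

/-- If the Hodge ring of some power is not generated by divisors, there is a nonzero relation. -/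
theorem exists_rel_of_not_generated [Fintype (K →+* L)] {Φ : Finset (K →+* ℂ)}
    (hΦ : IsCMType Φ) {c : K →+* K}
    (hc : ∀ ψ : K →+* ℂ, ComplexEmbedding.conjugate ψ = ψ.comp c)
    (h : ¬ HodgeRingGeneratedByDivisors Φ) :
    ∃ b ∈ relSet (L ≃ₐ[ℚ] L) (fun α : K →+* L => α.comp c) (sgnOf Ψ Φ), b ≠ 0 := by
  classical
  by_contra hcon
  push Not at hcon
  apply h
  intro k p ω hω
  obtain ⟨n, b, d, -, h2⟩ := exists_dual K
  refine mem_span_rational hΦ ω hω (mem_span_complex hΦ hc h2 ω ?_)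
  intro f h hco
  apply exists_pairing hΦ
  have hcc : ∀ x, c (c x) = x := by
    intro x
    obtain ⟨φ⟩ : Nonempty (K →+* ℂ) := inferInstance
    have h1 := conj_conj φ
    rw [hc, hc] at h1
    apply φ.injective
    exact RingHom.congr_fun h1 x
  have hinv : ∀ α : K →+* L, (α.comp c).comp c = α := by
    intro α; ext x
    show α (c (c x)) = α x
    rw [hcc]
  set α : Fin p × Fin 2 → (K →+* L) := fun l => (toC Ψ).symm (h l) with hα
  have hh : h = fun l => Ψ.comp (α l) := by
    funext l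
    rw [← toC_apply, hα]
    exact ((toC Ψ).apply_symm_apply (h l)).symm
  clear_value α
  subst hh
  set M : (K →+* L) → ℤ := fun x => ((univ.filter fun l => α l = x).card : ℤ) with hM
  set B : (K →+* L) → ℤ := fun x => M x - M (x.comp c) with hB
  have hS : ∀ g : L ≃ₐ[ℚ] L, ∑ x, sgnOf Ψ Φ (g • x) * M x = 0 := by
    intro g
    have h4 : ∑ x, sgnOf Ψ Φ (g • x) * M x = ∑ l, sgnOf Ψ Φ (g • α l) := by
      rw [← Finset.sum_fiberwise (s := univ) (g := α) (f := fun l => sgnOf Ψ Φ (g • α l))]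
      refine Finset.sum_congr rfl fun x _ => ?_
      rw [Finset.sum_congr rfl (g := fun _ => sgnOf Ψ Φ (g • x))]
      · rw [Finset.sum_const, nsmul_eq_mul, mul_comm]
      · intro l hl
        rw [(mem_filter.1 hl).2]
    rw [h4]
    unfold sgnOf
    rw [Finset.sum_ite, Finset.sum_const, Finset.sum_const]
    have h6 := balanced hΦ h2 ω.toMultilinearMap (fun z hz v => hω.type_pp z hz v) f
      (fun l => Ψ.comp (g • α l)) (coef_gal2 Ψ ω.toMultilinearMap hω.rational f α g hco)
    rw [h6]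
    simp
  have hmem : B ∈ relSet (L ≃ₐ[ℚ] L) (fun α : K →+* L => α.comp c) (sgnOf Ψ Φ) := by
    refine ⟨fun e => ?_, fun g => ?_⟩
    · simp only [hB]
      rw [hinv]; ring
    · simp only [hB, mul_sub, Finset.sum_sub_distrib]
      rw [hS g]
      have h5 : ∑ x, sgnOf Ψ Φ (g • x) * M (x.comp c) = - ∑ x, sgnOf Ψ Φ (g • x) * M x := by
        rw [← Finset.sum_neg_distrib]
        refine Finset.sum_bij' (fun x _ => x.comp c) (fun x _ => x.comp c) (fun _ _ => mem_univ _)
          (fun _ _ => mem_univ _) (fun x _ => hinv x) (fun x _ => hinv x) ?_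
        intro x _
        rw [emb_smul_comp, sgnOf_bar Ψ hΦ hc]
        ring
      rw [h5, hS g]
      simp
  have hB0 := hcon B hmem
  intro ψ
  have h8 := congrFun hB0 ((toC Ψ).symm ψ)
  have h9 : ∀ y : K →+* L, (univ.filter fun l => Ψ.comp (α l) = Ψ.comp y).card
      = (univ.filter fun l => α l = y).card := by
    intro y
    congr 1
    ext l
    simp only [mem_filter, mem_univ, true_and]
    exact (toC_injective Ψ).eq_iff
  have h10 : ψ = Ψ.comp ((toC Ψ).symm ψ) := by
    rw [← toC_apply]; exact ((toC Ψ).apply_symm_apply ψ).symm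
  have h11 : ComplexEmbedding.conjugate ψ = Ψ.comp (((toC Ψ).symm ψ).comp c) := by
    rw [hc, ← RingHom.comp_assoc, ← h10]
  rw [h11]
  conv_lhs => rw [h10]
  rw [h9, h9]
  simp only [hB, hM, Pi.zero_apply, sub_eq_zero] at h8
  exact_mod_cast h8

/-- If the discriminant of `K` is not a square, some element of the Galois group is an odd
permutation of the embeddings. -/
theorem exists_odd_of_discr [Fintype (K →+* L)] [DecidableEq (K →+* L)]
    (hd : ¬ IsSquare (discr K)) :
    ∃ g : L ≃ₐ[ℚ] L, Equiv.Perm.sign (MulAction.toPerm g : Equiv.Perm (K →+* L)) ≠ 1 := by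
  classical
  by_contra hcon
  push Not at hcon
  apply hd
  obtain ⟨Ψ⟩ : Nonempty (L →+* ℂ) := inferInstance
  let β : (K →+* ℂ) → K := fun φ => integralBasis K (equivReindex K φ)
  have h1 : basisMatrix K = Matrix.of fun φ ψ : K →+* ℂ => ψ (β φ) := by
    ext φ ψ
    simp [basisMatrix, β]
  let N : Matrix (K →+* L) (K →+* L) L := Matrix.of fun α γ => γ (β (toC Ψ α))
  have h2 : (basisMatrix K).det = Ψ N.det := by
    rw [RingHom.map_det, ← Matrix.det_submatrix_equiv_self (toC Ψ), h1]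
    congr 1
  have h3 : ∀ g : L ≃ₐ[ℚ] L, g N.det = N.det := by
    intro g
    have h4 : g N.det = (N.submatrix id (MulAction.toPerm g : Equiv.Perm (K →+* L))).det := by
      have h5 : g N.det = (g : L →+* L) N.det := rfl
      rw [h5, RingHom.map_det]
      congr 1
    rw [h4, Matrix.det_permute', hcon g]
    simp
  have h4 : N.det ∈ Set.range (algebraMap ℚ L) :=
    (IsGalois.mem_range_algebraMap_iff_fixed _).2 h3
  obtain ⟨q, hq⟩ := h4
  have h5 : (discr K : ℂ) = ((q ^ 2 : ℚ) : ℂ) := by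
    rw [discr_eq_basisMatrix_det_sq, h2, ← hq, eq_ratCast, map_ratCast]
    push_cast
    rfl
  rw [← Rat.isSquare_intCast_iff]
  refine ⟨q, ?_⟩
  have h6 : ((discr K : ℚ) : ℂ) = ((q ^ 2 : ℚ) : ℂ) := by
    rw [← h5]; norm_cast
  have h7 := (Rat.cast_injective (α := ℂ)) h6
  rw [h7, pow_two]

end Pool.MP43e44c
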