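import Pool.Agent.H.MP_43e44c_ag.Syl.Gal2
import Pool.Agent.H.MP_43e44c_ag.Syl.Choose

/-!
CM fields of degree `2^k` and `2 p^m`.
-/

set_option autoImplicit false

open NumberField Module Finset

namespace Pool.MP43e44c

attribute [local instance] embAction

theorem exists_galois (K : Type*) [Field K] [NumberField K] :
    ∃ (L : IntermediateField ℚ (AlgebraicClosure K)) (_ : Algebra K L), NumberField L ∧ IsGalois ℚ L := by
  have halg : Algebra.IsAlgebraic ℚ (AlgebraicClosure K) := Algebra.IsAlgebraic.trans ℚ K _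
  have hcl : IsAlgClosure ℚ (AlgebraicClosure K) := ⟨inferInstance, halg⟩
  have hn : Normal ℚ (AlgebraicClosure K) := IsAlgClosure.normal ℚ _
  refine ⟨IntermediateField.normalClosure ℚ K (AlgebraicClosure K), inferInstance, ?_, ?_⟩
  · have : FiniteDimensional ℚ (IntermediateField.normalClosure ℚ K (AlgebraicClosure K)) := inferInstance
    exact { to_charZero := inferInstance, to_finiteDimensional := this }
  · have h1 := normalClosure.normal ℚ K (AlgebraicClosure K)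
    have h2 : Normal ℚ (IntermediateField.normalClosure ℚ K (AlgebraicClosure K)) := by
      convert! h1
    exact { }

theorem conj_eq_comp (K : Type*) [Field K] [NumberField K] [IsCMField K] :
    ∃ c : K →+* K, ∀ ψ : K →+* ℂ, ComplexEmbedding.conjugate ψ = ψ.comp c := by
  refine ⟨(IsCMField.complexConj K : K →+* K), fun ψ => ?_⟩
  ext x
  have := IsCMField.complexEmbedding_complexConj K ψ x
  rw [ComplexEmbedding.conjugate_coe_eq]
  exact this.symm

theorem two_pow_generated {K : Type*} [Field K] [NumberField K] [IsCMField K] {k : ℕ}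
    (hdeg : finrank ℚ K = 2 ^ k) (hdisc : ¬ IsSquare (discr K))
    {Φ : Finset (K →+* ℂ)} (hΦ : IsCMType Φ) : HodgeRingGeneratedByDivisors Φ := by
  classical
  obtain ⟨L, hA, hL, hG⟩ := exists_galois K
  obtain ⟨c, hc⟩ := conj_eq_comp K
  obtain ⟨Ψ⟩ : Nonempty (L →+* ℂ) := inferInstance
  have : MulAction.IsPretransitive (L ≃ₐ[ℚ] L) (K →+* L) := emb_pretransitive' Ψ
  have : Finite (K →+* L) := Finite.of_equiv _ (toC Ψ).symm
  have : Fintype (K →+* L) := Fintype.ofFinite _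
  have hcc : ∀ x, c (c x) = x := by
    intro x
    obtain ⟨φ⟩ : Nonempty (K →+* ℂ) := inferInstance
    have h1 := conj_conj φ
    rw [hc, hc] at h1
    apply φ.injective
    exact RingHom.congr_fun h1 x
  have hinv : ∀ α : K →+* L, (α.comp c).comp c = α := by
    intro α; ext x
    show _ = (α x : AlgebraicClosure K)
    rw [← congrArg α (hcc x)]
    rfl
  by_contra hcon
  obtain ⟨b, hb, hb0⟩ := exists_rel_of_not_generated Ψ hΦ hc hcon
  have hE : Nat.card (K →+* L) = 2 ^ k := by rw [emb_card Ψ, hdeg]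
  obtain ⟨b', hb', hodd⟩ := exists_all_odd (fun g α => emb_smul_comp g α c) hE hb hb0
  obtain ⟨g, hg⟩ := exists_odd_of_discr (L := L) hdisc
  apply hg
  refine sign_eq_one (bar := fun α : K →+* L => α.comp c) hinv (fun α => sgnOf_bar Ψ hΦ hc α)
    (sgnOf_or Ψ Φ) _ (fun α => emb_smul_comp g α c) ?_
  exact even_flips hinv (fun α => sgnOf_bar Ψ hΦ hc α) (sgnOf_or Ψ Φ)
    (fun g α => emb_smul_comp g α c) hb' hodd g


theorem odd_pow_base {K : Type*} [Field K] [NumberField K] [IsCMField K] {p m : ℕ}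
    (hp : p.Prime) (hp2 : 2 < p) (hm : 1 ≤ m) (hdeg : finrank ℚ K = 2 * p ^ m) :
    ∃ Φ₀ : Finset (K →+* ℂ), IsCMType Φ₀ ∧ Φ₀.card = p ^ m ∧
      ∀ Φ : Finset (K →+* ℂ), IsCMType Φ → ¬ HodgeRingGeneratedByDivisors Φ →
        ∀ σ : ℂ →+* ℂ, p ∣ (open Classical in Φ₀.filter fun φ => σ.comp φ ∈ Φ).card := by
  classical
  have : Fact p.Prime := ⟨hp⟩
  obtain ⟨L, hA, hL, hG⟩ := exists_galois K
  obtain ⟨c, hc⟩ := conj_eq_comp K
  obtain ⟨Ψ⟩ : Nonempty (L →+* ℂ) := inferInstance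
  have : MulAction.IsPretransitive (L ≃ₐ[ℚ] L) (K →+* L) := emb_pretransitive' Ψ
  have : Finite (K →+* L) := Finite.of_equiv _ (toC Ψ).symm
  have : Fintype (K →+* L) := Fintype.ofFinite _
  have hcc : ∀ x, c (c x) = x := by
    intro x
    obtain ⟨φ⟩ : Nonempty (K →+* ℂ) := inferInstance
    have h1 := conj_conj φ
    rw [hc, hc] at h1
    apply φ.injective
    exact RingHom.congr_fun h1 x
  have hinv : ∀ α : K →+* L, (α.comp c).comp c = α := by
    intro α; ext x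
    show _ = (α x : AlgebraicClosure K)
    rw [← congrArg α (hcc x)]
    rfl
  have hbarC : ∀ α : K →+* L, ComplexEmbedding.conjugate (Ψ.comp α) = Ψ.comp (α.comp c) := by
    intro α
    rw [hc]; rfl
  have hne : ∀ α : K →+* L, α.comp c ≠ α := by
    intro α h
    have h1 := hbarC α
    rw [h] at h1
    exact IsTotallyComplex.complexEmbedding_not_isReal (Ψ.comp α) h1
  have hE : Nat.card (K →+* L) = 2 * p ^ m := by rw [emb_card Ψ, hdeg]
  obtain ⟨P⟩ : Nonempty (Sylow p (L ≃ₐ[ℚ] L)) := inferInstance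
  set e₀ : K →+* L := algebraMap K L
  set O : Finset (K →+* L) := (Set.toFinite (MulAction.orbit P e₀)).toFinset with hO
  have hOm : ∀ x, x ∈ O ↔ x ∈ MulAction.orbit P e₀ := fun x => by rw [hO]; simp
  have hOcard : O.card = p ^ m := by
    rw [← orbit_card hp2 hE P e₀, Set.ncard_eq_toFinset_card _ (Set.toFinite _)]
  have hmem := mem_or_bar_mem hp2 hE (fun g α => emb_smul_comp g α c) hinv hne P e₀
  refine ⟨O.map (toC Ψ).toEmbedding, ?_, by rw [card_map, hOcard], ?_⟩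
  · intro φ
    obtain ⟨α, rfl⟩ := (toC Ψ).surjective φ
    have h1 : ComplexEmbedding.conjugate (toC Ψ α) = toC Ψ (α.comp c) := hbarC α
    rw [h1, ← Equiv.coe_toEmbedding, mem_map', mem_map', hOm, hOm]
    exact hmem α
  · intro Φ hΦ hcon σ
    obtain ⟨b, hb, hb0⟩ := exists_rel_of_not_generated Ψ hΦ hc hcon
    -- the automorphism of `L` induced by `σ`
    obtain ⟨g, hg⟩ : ∃ g : L ≃ₐ[ℚ] L, ∀ α : K →+* L, Ψ.comp (g • α) = σ.comp (Ψ.comp α) := by
      obtain ⟨τ, hτ⟩ := NumberField.ComplexEmbedding.exists_comp_symm_eq_of_comp_eq (k := ℚ) Ψ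
        (σ.comp Ψ) (Subsingleton.elim _ _)
      refine ⟨τ.symm, fun α => ?_⟩
      ext x
      exact RingHom.congr_fun hτ (α x)
    have hb' : b ∈ relSet (L ≃ₐ[ℚ] L) (fun α : K →+* L => α.comp c)
        (fun α => sgnOf Ψ Φ (g • α)) := by
      refine ⟨hb.1, fun g' => ?_⟩
      have := hb.2 (g * g')
      simpa only [mul_smul] using this
    have hdvd := dvd_sum_orbit hp2 hE (fun g α => emb_smul_comp g α c) hinv hne P e₀
      (f := fun α => sgnOf Ψ Φ (g • α))
      (fun α => by rw [emb_smul_comp, sgnOf_bar Ψ hΦ hc]) hb' hb0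
    rw [← hO] at hdvd
    set a := ((O.map (toC Ψ).toEmbedding).filter fun φ => σ.comp φ ∈ Φ).card with ha
    have ha' : a = (O.filter fun α => Ψ.comp (g • α) ∈ Φ).card := by
      rw [ha, filter_map, card_map]
      congr 1
      ext α
      simp only [mem_filter, Function.comp_apply, hg]
      rfl
    have hsum : ∑ e ∈ O, sgnOf Ψ Φ (g • e) = 2 * (a : ℤ) - p ^ m := by
      have h2 : ∑ e ∈ O, sgnOf Ψ Φ (g • e)
          = ∑ e ∈ O, (if Ψ.comp (g • e) ∈ Φ then (1 : ℤ) else -1) := rfl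
      have h3 := Finset.card_filter_add_card_filter_not (s := O) (fun α => Ψ.comp (g • α) ∈ Φ)
      rw [h2, Finset.sum_ite, Finset.sum_const, Finset.sum_const, ha']
      rw [hOcard] at h3
      have h4 : ((O.filter fun α => ¬ Ψ.comp (g • α) ∈ Φ).card : ℤ)
          = (p : ℤ) ^ m - (O.filter fun α => Ψ.comp (g • α) ∈ Φ).card := by
        have := congrArg (Nat.cast : ℕ → ℤ) h3
        push_cast at this
        linarith
      rw [nsmul_eq_mul, nsmul_eq_mul, h4]
      ring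
    rw [hsum] at hdvd
    have h5 : (p : ℤ) ∣ (p : ℤ) ^ m := dvd_pow_self _ (by omega)
    have h6 : (p : ℤ) ∣ 2 * (a : ℤ) := by
      have := dvd_add hdvd h5
      simpa using this
    have h7 : p ∣ 2 * a := by exact_mod_cast h6
    exact (Nat.Coprime.dvd_mul_left
      ((Nat.coprime_primes hp Nat.prime_two).2 (by omega))).1 h7

theorem filter_injOn {K : Type*} [Field K] [NumberField K] [DecidableEq (K →+* ℂ)]
    {Φ₀ : Finset (K →+* ℂ)} (h0 : IsCMType Φ₀) {Φ Φ' : Finset (K →+* ℂ)}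
    (hΦ : IsCMType Φ) (hΦ' : IsCMType Φ')
    (h : (Φ₀.filter fun φ => φ ∈ Φ) = Φ₀.filter fun φ => φ ∈ Φ') : Φ = Φ' := by
  have h1 : ∀ φ ∈ Φ₀, (φ ∈ Φ ↔ φ ∈ Φ') := by
    intro φ hφ
    have := Finset.ext_iff.1 h φ
    simpa [hφ] using this
  ext φ
  by_cases h2 : φ ∈ Φ₀
  · exact h1 φ h2
  · have h3 : ComplexEmbedding.conjugate φ ∈ Φ₀ := by
      by_contra h4
      exact h2 ((h0 φ).2 h4)
    rw [hΦ φ, hΦ' φ, h1 _ h3]

theorem two_pow_le_ncard {K : Type*} [Field K] [NumberField K] {Φ₀ : Finset (K →+* ℂ)}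
    (h0 : IsCMType Φ₀) :
    2 ^ Φ₀.card ≤ {Φ : Finset (K →+* ℂ) | IsCMType Φ}.ncard := by
  classical
  rw [← card_powerset, ← Set.ncard_coe_finset]
  refine Set.ncard_le_ncard_of_injOn
    (fun T => univ.filter fun φ => (φ ∈ Φ₀ ∧ φ ∈ T) ∨
      (ComplexEmbedding.conjugate φ ∈ Φ₀ ∧ ComplexEmbedding.conjugate φ ∉ T)) ?_ ?_ (Set.toFinite _)
  · intro T _ φ
    simp only [mem_filter, mem_univ, true_and, conj_conj]
    have h1 := h0 φ
    tauto
  · intro T hT T' hT' h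
    have hT := mem_powerset.1 (mem_coe.1 hT)
    have hT' := mem_powerset.1 (mem_coe.1 hT')
    have key : ∀ φ ∈ Φ₀, (φ ∈ T ↔ φ ∈ T') := by
      intro φ hφ
      have h2 := Finset.ext_iff.1 h φ
      simp only [mem_filter, mem_univ, true_and, hφ, (h0 φ).1 hφ, false_and, or_false] at h2
      exact h2
    ext φ
    by_cases hφ : φ ∈ Φ₀
    · exact key φ hφ
    · exact ⟨fun h => absurd (hT h) hφ, fun h => absurd (hT' h) hφ⟩

theorem odd_pow_bound {K : Type*} [Field K] [NumberField K] {p : ℕ} (hp : 0 < p)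
    {Φ₀ : Finset (K →+* ℂ)} (h0 : IsCMType Φ₀)
    (h : ∀ Φ : Finset (K →+* ℂ), IsCMType Φ → ¬ HodgeRingGeneratedByDivisors Φ →
        ∀ σ : ℂ →+* ℂ, p ∣ (open Classical in Φ₀.filter fun φ => σ.comp φ ∈ Φ).card) :
    ({Φ : Finset (K →+* ℂ) | IsCMType Φ ∧ ¬ HodgeRingGeneratedByDivisors Φ}.ncard : ℝ)
      ≤ (1 / p + ((Φ₀.card.choose (Φ₀.card / 2) : ℕ) : ℝ) / 2 ^ Φ₀.card) *
        ({Φ : Finset (K →+* ℂ) | IsCMType Φ}.ncard : ℝ) := by
  classical
  have h1 : {Φ : Finset (K →+* ℂ) | IsCMType Φ ∧ ¬ HodgeRingGeneratedByDivisors Φ}.ncard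
      ≤ (Φ₀.powerset.filter fun T => p ∣ T.card).card := by
    rw [← Set.ncard_coe_finset]
    refine Set.ncard_le_ncard_of_injOn (fun Φ => Φ₀.filter fun φ => φ ∈ Φ) ?_ ?_ (Set.toFinite _)
    · rintro Φ ⟨hΦ, hΦ'⟩
      rw [mem_coe, mem_filter, mem_powerset]
      refine ⟨filter_subset _ _, ?_⟩
      have h2 := h Φ hΦ hΦ' (RingHom.id ℂ)
      simp only [RingHom.id_comp] at h2
      convert h2
    · rintro Φ ⟨hΦ, -⟩ Φ' ⟨hΦ', -⟩ heq
      exact filter_injOn h0 hΦ hΦ' heq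
  have h2 := h1.trans (card_powerset_dvd Φ₀ hp)
  have h3 := mul_sum_choose_le (N := Φ₀.card) hp
  have h4 := two_pow_le_ncard h0
  set B := {Φ : Finset (K →+* ℂ) | IsCMType Φ ∧ ¬ HodgeRingGeneratedByDivisors Φ}.ncard
  set A := {Φ : Finset (K →+* ℂ) | IsCMType Φ}.ncard
  set N := Φ₀.card
  have h5 : p * B ≤ 2 ^ N + p * N.choose (N / 2) := (Nat.mul_le_mul_left p h2).trans h3
  have h6 : (p : ℝ) * B ≤ 2 ^ N + p * (N.choose (N / 2) : ℕ) := by exact_mod_cast h5
  have h7 : (2 : ℝ) ^ N ≤ A := by exact_mod_cast h4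
  have hp' : (0 : ℝ) < p := by exact_mod_cast hp
  have h8 : (B : ℝ) ≤ (1 / p + ((N.choose (N / 2) : ℕ) : ℝ) / 2 ^ N) * 2 ^ N := by
    have h9 : (1 / (p : ℝ) + ((N.choose (N / 2) : ℕ) : ℝ) / 2 ^ N) * 2 ^ N
        = (2 ^ N + p * ((N.choose (N / 2) : ℕ) : ℝ)) / p := by
      field_simp
    rw [h9, le_div_iff₀ hp']
    linarith
  exact h8.trans (mul_le_mul_of_nonneg_left h7 (by positivity))

end Pool.MP43e44c
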