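import Mathlib

/-!
Relations orthogonal to all translates of a CM type: the fixed vector argument.
-/

set_option autoImplicit false

open Finset

namespace Pool.MP43e44c

variable {G E : Type*} [Group G] [MulAction G E] [Fintype E]

/-- Odd integral functions orthogonal to all translates of `f`. -/
def relSet (G : Type*) {E : Type*} [Group G] [MulAction G E] [Fintype E] (bar : E → E)
    (f : E → ℤ) : AddSubgroup (E → ℤ) where
  carrier := {b | (∀ e, b (bar e) = -b e) ∧ ∀ g : G, ∑ e, f (g • e) * b e = 0}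
  zero_mem' := by simp
  add_mem' := by
    rintro b b' ⟨h1, h2⟩ ⟨h1', h2'⟩
    refine ⟨fun e => by rw [Pi.add_apply, Pi.add_apply, h1, h1']; ring, fun g => ?_⟩
    simp only [Pi.add_apply, mul_add, Finset.sum_add_distrib, h2, h2', add_zero]
  neg_mem' := by
    rintro b ⟨h1, h2⟩
    refine ⟨fun e => by rw [Pi.neg_apply, Pi.neg_apply, h1], fun g => ?_⟩
    simp only [Pi.neg_apply, mul_neg, Finset.sum_neg_distrib, h2, neg_zero]

theorem mem_relSet {bar : E → E} {f : E → ℤ} {b : E → ℤ} :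
    b ∈ relSet G bar f ↔ (∀ e, b (bar e) = -b e) ∧ ∀ g : G, ∑ e, f (g • e) * b e = 0 := Iff.rfl

theorem relSet_smul {bar : E → E} {f : E → ℤ} (hbar : ∀ (g : G) e, g • bar e = bar (g • e))
    {b : E → ℤ} (hb : b ∈ relSet G bar f) (x : G) : (fun e => b (x • e)) ∈ relSet G bar f := by
  refine ⟨fun e => by simp only [hbar, hb.1], fun g => ?_⟩
  have h := hb.2 (g * x⁻¹)
  rw [← Equiv.sum_comp (MulAction.toPerm x)] at h
  rw [← h]
  refine Finset.sum_congr rfl fun e _ => ?_
  rw [MulAction.toPerm_apply, mul_smul, inv_smul_smul]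

/-- Saturation. -/
theorem exists_not_dvd {bar : E → E} {f : E → ℤ} {p : ℕ} (hp : 2 ≤ p) {b : E → ℤ}
    (hb : b ∈ relSet G bar f) (h0 : b ≠ 0) : ∃ b' ∈ relSet G bar f, ∃ e, ¬ (p : ℤ) ∣ b' e := by
  by_contra hcon
  push Not at hcon
  have key : ∀ N : ℕ, ∀ b ∈ relSet G bar f, b ≠ 0 → (∑ e, (b e).natAbs) ≤ N → False := by
    intro N
    induction N with
    | zero =>
      intro b _ h0 hN
      apply h0
      funext e
      have := Finset.sum_eq_zero_iff.1 (Nat.le_zero.1 hN) e (mem_univ e)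
      simpa using this
    | succ N ih =>
      intro b hb h0 hN
      have h1 := hcon b hb
      choose c hc using h1
      have hbc : b = fun e => (p : ℤ) * c e := funext hc
      have hp0 : (p : ℤ) ≠ 0 := by positivity
      have hcm : c ∈ relSet G bar f := by
        refine ⟨fun e => ?_, fun g => ?_⟩
        · have h2 := hb.1 e
          rw [hc, hc e] at h2
          have h3 : (p : ℤ) * (c (bar e)) = p * (-c e) := by rw [h2]; ring
          exact mul_left_cancel₀ hp0 h3
        · have h2 := hb.2 g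
          have h3 : (p : ℤ) * ∑ e, f (g • e) * c e = 0 := by
            rw [← h2, Finset.mul_sum]
            refine Finset.sum_congr rfl fun e _ => ?_
            rw [hc e]; ring
          exact (mul_eq_zero.1 h3).resolve_left hp0
      have hc0 : c ≠ 0 := by
        rintro rfl
        apply h0
        rw [hbc]; funext e; simp
      have hlt : (∑ e, (c e).natAbs) < ∑ e, (b e).natAbs := by
        apply Finset.sum_lt_sum
        · intro e _
          rw [hc e, Int.natAbs_mul, Int.natAbs_natCast]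
          exact Nat.le_mul_of_pos_left _ (by omega)
        · obtain ⟨e, he⟩ := Function.ne_iff.1 hc0
          refine ⟨e, mem_univ e, ?_⟩
          rw [hc e, Int.natAbs_mul, Int.natAbs_natCast]
          have : 0 < (c e).natAbs := Int.natAbs_pos.2 he
          nlinarith
      exact ih c hcm hc0 (by omega)
  exact key _ b hb h0 le_rfl

/-- Reduction of the relations modulo `p`. -/
def relMod (G : Type*) {E : Type*} [Group G] [MulAction G E] [Fintype E] (bar : E → E)
    (f : E → ℤ) (p : ℕ) : AddSubgroup (E → ZMod p) :=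
  (relSet G bar f).map (AddMonoidHom.pi (fun e => (Int.castAddHom (ZMod p)).comp (Pi.evalAddMonoidHom _ e)))

theorem mem_relMod {bar : E → E} {f : E → ℤ} {p : ℕ} {β : E → ZMod p} :
    β ∈ relMod G bar f p ↔ ∃ b ∈ relSet G bar f, ∀ e, β e = (b e : ZMod p) := by
  constructor
  · rintro ⟨b, hb, rfl⟩
    exact ⟨b, hb, fun e => rfl⟩
  · rintro ⟨b, hb, h⟩
    exact ⟨b, hb, (funext h).symm⟩

/-- A `p`-subgroup fixes a nonzero relation modulo `p`. -/
theorem exists_fixed {bar : E → E} {f : E → ℤ} (hbar : ∀ (g : G) e, g • bar e = bar (g • e))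
    {p : ℕ} [Fact p.Prime] {P : Subgroup G} (hP : IsPGroup p P) {b : E → ℤ}
    (hb : b ∈ relSet G bar f) (h0 : b ≠ 0) :
    ∃ b' ∈ relSet G bar f, (∃ e, ¬ (p : ℤ) ∣ b' e) ∧ ∀ x ∈ P, ∀ e, (p : ℤ) ∣ b' (x • e) - b' e := by
  classical
  obtain ⟨b₁, hb₁, e₁, he₁⟩ := exists_not_dvd (Fact.out (p := p.Prime)).two_le hb h0
  let M := relMod G bar f p
  have : NeZero p := ⟨(Fact.out (p := p.Prime)).ne_zero⟩
  let act : MulAction P M :=
    { smul := fun x β => ⟨fun e => β.1 ((x : G)⁻¹ • e), by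
        obtain ⟨b, hb, h⟩ := mem_relMod.1 β.2
        exact mem_relMod.2 ⟨_, relSet_smul hbar hb (x : G)⁻¹, fun e => h _⟩⟩
      one_smul := fun β => by
        apply Subtype.ext; funext e
        show β.1 (((1 : P) : G)⁻¹ • e) = β.1 e
        simp
      mul_smul := fun x y β => by
        apply Subtype.ext; funext e
        show β.1 (((x * y : P) : G)⁻¹ • e) = β.1 ((y : G)⁻¹ • (x : G)⁻¹ • e)
        rw [Subgroup.coe_mul, mul_inv_rev, mul_smul] }
  have hsm : ∀ (x : P) (β : M) e, (act.smul x β).1 e = β.1 ((x : G)⁻¹ • e) := fun _ _ _ => rfl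
  have hcard : p ∣ Nat.card M := by
    let β₁ : M := ⟨fun e => (b₁ e : ZMod p), mem_relMod.2 ⟨b₁, hb₁, fun e => rfl⟩⟩
    have h1 : β₁ ≠ 0 := by
      intro h
      apply he₁
      have h2 : (β₁ : E → ZMod p) e₁ = 0 := by rw [h]; rfl
      exact (ZMod.intCast_zmod_eq_zero_iff_dvd _ _).1 h2
    have h2 : p • β₁ = 0 := by
      apply Subtype.ext; funext e
      simp [β₁]
    have h3 : addOrderOf β₁ = p := addOrderOf_eq_prime h2 h1
    have h4 := addOrderOf_dvd_natCard β₁
    exact h3.symm.dvd.trans h4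
  have hz : (0 : M) ∈ MulAction.fixedPoints P M := by
    intro x
    apply Subtype.ext; funext e
    show ((act.smul x 0 : M) : E → ZMod p) e = 0
    rw [hsm]; rfl
  obtain ⟨β, hβ, hne⟩ := hP.exists_fixed_point_of_prime_dvd_card_of_fixed_point M hcard hz
  obtain ⟨b, hb, hbβ⟩ := mem_relMod.1 β.2
  refine ⟨b, hb, ?_, ?_⟩
  · by_contra hcon
    push Not at hcon
    apply hne
    apply Subtype.ext; funext e
    rw [hbβ, (ZMod.intCast_zmod_eq_zero_iff_dvd _ _).2 (hcon e)]
    rfl
  · intro x hx e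
    have h1 := hβ (⟨x, hx⟩⁻¹ : P)
    have h2 : ((act.smul (⟨x, hx⟩⁻¹ : P) β : M) : E → ZMod p) e = β.1 e := by
      have : (act.smul (⟨x, hx⟩⁻¹ : P) β : M) = β := h1
      rw [this]
    rw [hsm, hbβ, hbβ] at h2
    have h3 : (((⟨x, hx⟩⁻¹ : P) : G)⁻¹ • e) = x • e := by simp
    rw [h3] at h2
    rw [← ZMod.intCast_zmod_eq_zero_iff_dvd, Int.cast_sub, h2, sub_self]

end Pool.MP43e44c
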